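import Mathlib

/-!
# Commuting real matrix tuples: never every non-zero vector hypercyclic for `n ≥ 3`
-/

namespace Pool.Agent.Results.MP_336050_an.NoEverywhereHypercyclic

open Module

/-- The orbit `{A₁^{k₁} ⋯ A_m^{k_m} x : kᵢ ∈ ℕ}` of a vector `x` under an `m`-tuple of
real `n × n` matrices (the product is taken in the order `1, …, m`). -/
def orbit {n m : ℕ} (A : Fin m → Matrix (Fin n) (Fin n) ℝ) (x : Fin n → ℝ) :
    Set (Fin n → ℝ) :=
  {y | ∃ k : Fin m → ℕ, y = ((List.ofFn fun i => A i ^ k i).prod).mulVec x}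

/-- A commuting family of complex endomorphisms of a nonzero finite-dimensional space has
a common eigenvector. -/
lemma common_eigenvector {V : Type*} [AddCommGroup V] [Module ℂ V] [FiniteDimensional ℂ V]
    [Nontrivial V] {ι : Type*} (f : ι → End ℂ V) (hc : ∀ i j, Commute (f i) (f j)) :
    ∃ v : V, v ≠ 0 ∧ ∀ i, ∃ c : ℂ, f i v = c • v := by
  classical
  -- a nonzero invariant subspace of minimal dimension
  let P : ℕ → Prop := fun d => ∃ W : Submodule ℂ V, W ≠ ⊥ ∧ (∀ i, ∀ w ∈ W, f i w ∈ W) ∧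
    finrank ℂ W = d
  have hP : ∃ d, P d := ⟨finrank ℂ (⊤ : Submodule ℂ V), ⊤, by simp, by simp, rfl⟩
  obtain ⟨W, hW0, hWinv, hWd⟩ := Nat.find_spec hP
  have hmin : ∀ U : Submodule ℂ V, U ≠ ⊥ → (∀ i, ∀ w ∈ U, f i w ∈ U) → U ≤ W → U = W := by
    intro U hU hUi hUW
    apply Submodule.eq_of_le_of_finrank_le hUW
    rw [hWd]
    exact Nat.find_min' hP ⟨U, hU, hUi, rfl⟩
  have hscal : ∀ i, ∃ c : ℂ, ∀ w ∈ W, f i w = c • w := by
    intro i
    have : Nontrivial W := Submodule.nontrivial_iff_ne_bot.2 hW0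
    let g : End ℂ W := (f i).restrict (hWinv i)
    obtain ⟨c, hcv⟩ := Module.End.exists_eigenvalue g
    obtain ⟨w, hw⟩ := hcv.exists_hasEigenvector
    refine ⟨c, ?_⟩
    let U : Submodule ℂ V := W ⊓ (f i).eigenspace c
    have hwU : (w : V) ∈ U := by
      refine ⟨w.2, ?_⟩
      rw [SetLike.mem_coe, Module.End.mem_eigenspace_iff]
      have := hw.apply_eq_smul
      have h2 := congrArg (Subtype.val) this
      simpa [g] using h2
    have hU0 : U ≠ ⊥ := by
      intro h
      rw [h] at hwU
      apply hw.2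
      exact Subtype.ext (by simpa using hwU)
    have hUi : ∀ j, ∀ u ∈ U, f j u ∈ U := by
      rintro j u ⟨hu1, hu2⟩
      refine ⟨hWinv j u hu1, ?_⟩
      rw [SetLike.mem_coe, Module.End.mem_eigenspace_iff] at hu2 ⊢
      have h1 : f i (f j u) = f j (f i u) := by
        have := (hc i j)
        have h3 := congrArg (fun F : End ℂ V => F u) this.eq
        simpa using h3
      rw [h1, hu2, map_smul]
    have hUW := hmin U hU0 hUi inf_le_left
    intro w hw
    rw [← hUW] at hw
    exact Module.End.mem_eigenspace_iff.1 hw.2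
  obtain ⟨v, hvW, hv0⟩ := (Submodule.ne_bot_iff W).1 hW0
  exact ⟨v, hv0, fun i => (hscal i).imp fun c h => h v hvW⟩

/-- **Main result.** For every `n ≥ 3`, every `m` and every `m`-tuple of pairwise commuting
real `n × n` matrices there is a non-zero vector whose orbit lies in a linear subspace of
dimension at most `2`; in particular its orbit is not dense in `ℝⁿ`. -/
theorem result (n : ℕ) (hn : 3 ≤ n) (m : ℕ) (A : Fin m → Matrix (Fin n) (Fin n) ℝ)
    (hc : ∀ i j, Commute (A i) (A j)) :
    ∃ x : Fin n → ℝ, x ≠ 0 ∧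
      (∃ W : Submodule ℝ (Fin n → ℝ), finrank ℝ W ≤ 2 ∧ orbit A x ⊆ W) ∧
      ¬ Dense (orbit A x) := by
  classical
  -- complexify
  let B : Fin m → Matrix (Fin n) (Fin n) ℂ := fun i => (A i).map Complex.ofRealHom
  have hBc : ∀ i j, Commute (B i) (B j) := by
    intro i j
    have h := congrArg (fun M : Matrix (Fin n) (Fin n) ℝ => M.map Complex.ofRealHom) (hc i j).eq
    simp only [Matrix.map_mul] at h
    exact h
  have : Nonempty (Fin n) := ⟨⟨0, by omega⟩⟩
  obtain ⟨v, hv0, hv⟩ := common_eigenvector (V := Fin n → ℂ)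
    (fun i => Matrix.toLin' (B i)) (by
      intro i j
      have h := (hBc i j).eq
      change Matrix.toLin' (B i) * Matrix.toLin' (B j) = Matrix.toLin' (B j) * Matrix.toLin' (B i)
      rw [Module.End.mul_eq_comp, Module.End.mul_eq_comp, ← Matrix.toLin'_mul,
        ← Matrix.toLin'_mul, h])
  choose c hcv using hv
  let a : Fin n → ℝ := fun k => (v k).re
  let b : Fin n → ℝ := fun k => (v k).im
  have hAa : ∀ i, (A i).mulVec a = (c i).re • a - (c i).im • b := by
    intro i
    ext k
    have h := congrFun (hcv i) k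
    have h2 := congrArg Complex.re h
    simp only [Matrix.toLin'_apply, Matrix.mulVec, dotProduct, B, Matrix.map_apply,
      Complex.re_sum, Pi.smul_apply, smul_eq_mul, Complex.mul_re, Complex.ofRealHom_eq_coe,
      Complex.ofReal_re, Complex.ofReal_im, zero_mul, sub_zero] at h2
    simp only [Matrix.mulVec, dotProduct, Pi.sub_apply, Pi.smul_apply, smul_eq_mul, a, b]
    exact h2
  have hAb : ∀ i, (A i).mulVec b = (c i).im • a + (c i).re • b := by
    intro i
    ext k
    have h := congrFun (hcv i) k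
    have h2 := congrArg Complex.im h
    simp only [Matrix.toLin'_apply, Matrix.mulVec, dotProduct, B, Matrix.map_apply,
      Complex.im_sum, Pi.smul_apply, smul_eq_mul, Complex.mul_im, Complex.ofRealHom_eq_coe,
      Complex.ofReal_re, Complex.ofReal_im, zero_mul, add_zero] at h2
    simp only [Matrix.mulVec, dotProduct, Pi.add_apply, Pi.smul_apply, smul_eq_mul, a, b]
    rw [h2]; ring
  let W : Submodule ℝ (Fin n → ℝ) := Submodule.span ℝ {a, b}
  have haW : a ∈ W := Submodule.subset_span (by simp)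
  have hbW : b ∈ W := Submodule.subset_span (by simp)
  have hWi : ∀ i, ∀ w ∈ W, (A i).mulVec w ∈ W := by
    intro i w hw
    obtain ⟨s, t, rfl⟩ := Submodule.mem_span_pair.1 hw
    rw [Matrix.mulVec_add, Matrix.mulVec_smul, Matrix.mulVec_smul, hAa, hAb]
    exact W.add_mem (W.smul_mem _ (W.sub_mem (W.smul_mem _ haW) (W.smul_mem _ hbW)))
      (W.smul_mem _ (W.add_mem (W.smul_mem _ haW) (W.smul_mem _ hbW)))
  have hWp : ∀ i (k : ℕ), ∀ w ∈ W, (A i ^ k).mulVec w ∈ W := by
    intro i k
    induction k with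
    | zero => intro w hw; simpa using hw
    | succ k ih =>
      intro w hw
      rw [pow_succ, ← Matrix.mulVec_mulVec]
      exact ih _ (hWi i w hw)
  have hWl : ∀ (L : List (Matrix (Fin n) (Fin n) ℝ)),
      (∀ M ∈ L, ∀ w ∈ W, M.mulVec w ∈ W) → ∀ w ∈ W, (L.prod).mulVec w ∈ W := by
    intro L
    induction L with
    | nil => intro _ w hw; simpa using hw
    | cons M L ih =>
      intro h w hw
      rw [List.prod_cons, ← Matrix.mulVec_mulVec]
      exact h M (by simp) _ (ih (fun M' hM' => h M' (by simp [hM'])) w hw)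
  have hWorb : ∀ x ∈ W, orbit A x ⊆ W := by
    rintro x hx y ⟨k, rfl⟩
    apply hWl _ _ x hx
    intro M hM w hw
    rw [List.mem_ofFn] at hM
    obtain ⟨i, rfl⟩ := hM
    exact hWp i (k i) w hw
  have hdim : finrank ℝ W ≤ 2 := by
    have h := finrank_span_finset_le_card (R := ℝ) ({a, b} : Finset (Fin n → ℝ))
    have h2 : (({a, b} : Finset (Fin n → ℝ)) : Set (Fin n → ℝ)) = {a, b} := by simp
    rw [Set.finrank, h2] at h
    exact h.trans (Finset.card_le_two)
  have hx : ∃ x ∈ W, x ≠ 0 := by
    by_contra hcon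
    push Not at hcon
    have ha0 := hcon a haW
    have hb0 := hcon b hbW
    apply hv0
    ext k
    apply Complex.ext
    · exact congrFun ha0 k
    · exact congrFun hb0 k
  obtain ⟨x, hxW, hx0⟩ := hx
  refine ⟨x, hx0, ⟨W, hdim, hWorb x hxW⟩, ?_⟩
  intro hD
  have hcl : IsClosed (W : Set (Fin n → ℝ)) := Submodule.closed_of_finiteDimensional W
  have htop : (W : Set (Fin n → ℝ)) = Set.univ := by
    have h1 : closure (orbit A x) ⊆ W := hcl.closure_subset_iff.2 (hWorb x hxW)
    rw [hD.closure_eq] at h1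
    exact Set.univ_subset_iff.1 h1
  have htop' : W = ⊤ := by
    apply SetLike.coe_injective
    rw [htop]; rfl
  rw [htop', finrank_top, finrank_fin_fun] at hdim
  omega

end Pool.Agent.Results.MP_336050_an.NoEverywhereHypercyclic
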